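import Pool.Agent.L7h83.GK.Stm

set_option autoImplicit false

namespace Pool.Agent.L7h70.GK

open Finset
open Pool.Agent.L7h83.GK
open Pool.Agent.H126R2.CDC (T3 IsFl)
open Pool.Agent.Helper879.ECD (F2 f2_cases)

theorem s_SW (hG : S_GEN) (hJ : S_JOIN) (hK : S_LINK) : S_SW := by
  intro W E _ _ _ _ v A hA hnz hcon D hD
  have hR : Hyp v A (fun e => A 0 e = 0) :=
    ⟨hA, hnz, fun _ h => h, fun e f he hf => hK W E v (A 0) hcon e f he hf⟩
  obtain ⟨S, P, hP, hS2, hSf, hSP, hS1⟩ := hG W E v A _ hR
  obtain ⟨g, hg, hgd⟩ := hJ W E v (A 0) hcon (fun e => if e ∈ D then 1 else 0)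
  refine ⟨fun e => if g e = 1 then symmDiff (S e) P else S e, ?_, ?_⟩
  · intro c
    by_cases hc : c ∈ P
    · have h1 : (fun e => if c ∈ (if g e = 1 then symmDiff (S e) P else S e) then (1 : F2)
          else 0) = fun e => (if c ∈ S e then 1 else 0) + g e := by
        funext e
        rcases f2_cases (g e) with h0 | h0
        · simp [h0]
        · rw [if_pos h0, h0]
          by_cases hs : c ∈ S e
          · have : c ∉ symmDiff (S e) P := by simp [mem_symmDiff, hs, hc]
            rw [if_neg this, if_pos hs]; decide
          · have : c ∈ symmDiff (S e) P := by simp [mem_symmDiff, hs, hc]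
            rw [if_pos this, if_neg hs]; decide
      rw [h1]
      intro w
      have a1 := hSf c w
      have a2 := hg w
      calc ∑ h : E × Bool, (if v h = w then ((if c ∈ S h.1 then (1 : F2) else 0) + g h.1) else 0)
          = ∑ h : E × Bool, (if v h = w then (if c ∈ S h.1 then (1 : F2) else 0) else 0)
            + ∑ h : E × Bool, (if v h = w then g h.1 else 0) := by
              rw [← sum_add_distrib]
              apply sum_congr rfl
              intro h _
              by_cases hw : v h = w
              · simp only [if_pos hw]
              · simp only [if_neg hw, add_zero]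
        _ = 0 := by rw [a1, a2, add_zero]
    · have h1 : (fun e => if c ∈ (if g e = 1 then symmDiff (S e) P else S e) then (1 : F2)
          else 0) = fun e => (if c ∈ S e then 1 else 0) := by
        funext e
        by_cases h0 : g e = 1
        · rw [if_pos h0]; simp [mem_symmDiff, hc]
        · rw [if_neg h0]
      rw [h1]; exact hSf c
  · intro e
    by_cases h0 : A 0 e = 0
    · have heD : e ∉ D := fun h => hD e h h0
      rw [if_neg heD]
      have hsub := hSP e h0
      by_cases h1 : g e = 1
      · have h4 : symmDiff (S e) P = P \ S e := by
          ext c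
          have := @hsub c
          simp only [mem_symmDiff, mem_sdiff]
          tauto
        simp only [if_pos h1]
        rw [h4, card_sdiff_of_subset hsub, hP, hS2]
      · simp only [if_neg h1]; exact hS2 e
    · have h2 := hgd e h0
      by_cases heD : e ∈ D
      · have h3 : g e = 1 := by rw [h2, if_pos heD]
        have h5 := hS1 e h0
        have h6 : symmDiff (S e) P = (S e \ P) ∪ (P \ S e) := rfl
        have h7 : Disjoint (S e \ P) (P \ S e) := by
          rw [Finset.disjoint_left]
          intro c hc1 hc2
          simp only [mem_sdiff] at hc1 hc2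
          exact hc1.2 hc2.1
        have h8 := card_sdiff_add_card_inter (S e) P
        have h9 := card_sdiff_add_card_inter P (S e)
        rw [inter_comm P (S e)] at h9
        simp only [if_pos h3, if_pos heD]
        rw [h6, card_union_of_disjoint h7]
        have := hS2 e
        omega
      · have h3 : g e ≠ 1 := by rw [h2, if_neg heD]; decide
        simp only [if_neg h3, if_neg heD]; exact hS2 e

end Pool.Agent.L7h70.GK
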